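import Pool.Agent.H82.G4.Targets3

/-! MAIN4: the induction on scales, strong form, four terms (MP_ee74d2_an). -/

set_option autoImplicit false

namespace Pool.Agent.H35.G4

open Pool.Agent.H83.G Pool.Agent.H22.G4 Pool.Agent.H82.G4 MeasureTheory Set Filter Topology

private theorem bd_mono {m L : ℕ} {x κ R g g' : ℝ} (hR : 0 ≤ R) (h : Bds m L x κ R g)
    (hg : g ≤ g') : Bds m L x κ R g' := by
  intro A G hA hG
  refine (h A G hA hG).trans (ENNReal.ofReal_le_ofReal ?_)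
  have h1 : 0 ≤ ∫ ζ, ‖G ζ‖ ^ 2 := integral_nonneg fun ζ => by positivity
  have h2 : 0 ≤ A ^ x := Real.rpow_nonneg hA.le _
  have h3 : 0 ≤ R ^ (m * x / 2 - 1) := Real.rpow_nonneg hR _
  gcongr

private theorem tneg (c : ℝ) (hc : 0 < c) : Tendsto (fun R : ℝ => R ^ (-c)) atTop (𝓝 0) :=
  tendsto_rpow_neg_atTop hc

private theorem thr (K C₂ δ ε₀ ε : ℝ) (hδ : 0 < δ) (hε₀ : 0 < ε₀) (hε₀' : ε₀ ≤ 1 / 4)
    (hε : 0 < ε) : ∃ R₂ : ℝ, 1 ≤ R₂ ∧ ∀ R, R₂ ≤ R → K ^ 2 ≤ R ∧ C₂ ≤ R ∧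
      C₂ * R ^ (-δ) + R ^ (-(δ / 2)) ≤ (R ^ (1 - ε₀)) ^ (-(δ / 2)) ∧
      (R ^ (1 - ε₀)) ^ (-(δ / 2)) ≤ 1 / 8 ∧ C₂ * R ^ (-(ε₀ * ε / 2)) ≤ 1 / 4 ∧
      R ^ (1 - ε₀) ≤ R / 2 := by
  have h1 : ∀ᶠ R : ℝ in atTop, K ^ 2 ≤ R := eventually_ge_atTop _
  have h2 : ∀ᶠ R : ℝ in atTop, C₂ ≤ R := eventually_ge_atTop _
  have h0 : ∀ᶠ R : ℝ in atTop, (1 : ℝ) ≤ R := eventually_ge_atTop _
  -- (c): `C₂ R^(-δ/2) + 1 ≤ R^(ε₀ δ / 2)`
  have h3 : ∀ᶠ R : ℝ in atTop, C₂ * R ^ (-(δ / 2)) ≤ 1 := by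
    have := (tneg (δ / 2) (by positivity)).const_mul C₂
    rw [mul_zero] at this
    exact (this.eventually (gt_mem_nhds zero_lt_one)).mono fun R h => h.le
  have h4 : ∀ᶠ R : ℝ in atTop, (2 : ℝ) ≤ R ^ (ε₀ * (δ / 2)) :=
    (tendsto_rpow_atTop (by positivity)).eventually_ge_atTop 2
  have h5 : ∀ᶠ R : ℝ in atTop, R ^ (-((1 - ε₀) * (δ / 2))) ≤ 1 / 8 := by
    have hpos : 0 < (1 - ε₀) * (δ / 2) := by
      have : 0 < 1 - ε₀ := by linarith
      positivity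
    exact ((tneg _ hpos).eventually (gt_mem_nhds (by norm_num : (0 : ℝ) < 1 / 8))).mono
      fun R h => h.le
  have h6 : ∀ᶠ R : ℝ in atTop, C₂ * R ^ (-(ε₀ * ε / 2)) ≤ 1 / 4 := by
    have := (tneg (ε₀ * ε / 2) (by positivity)).const_mul C₂
    rw [mul_zero] at this
    exact (this.eventually (gt_mem_nhds (by norm_num : (0 : ℝ) < 1 / 4))).mono fun R h => h.le
  have h7 : ∀ᶠ R : ℝ in atTop, (2 : ℝ) ≤ R ^ ε₀ :=
    (tendsto_rpow_atTop hε₀).eventually_ge_atTop 2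
  obtain ⟨R₂, hR₂⟩ := eventually_atTop.1 (h0.and (h1.and (h2.and (h3.and (h4.and (h5.and
    (h6.and h7)))))))
  refine ⟨max 1 R₂, le_max_left _ _, fun R hR => ?_⟩
  obtain ⟨g0, g1, g2, g3, g4, g5, g6, g7⟩ := hR₂ R ((le_max_right _ _).trans hR)
  have hRp : 0 < R := by linarith
  have e1 : (R ^ (1 - ε₀)) ^ (-(δ / 2)) = R ^ (-((1 - ε₀) * (δ / 2))) := by
    rw [← Real.rpow_mul hRp.le]
    congr 1
    ring
  refine ⟨g1, g2, ?_, ?_, g6, ?_⟩
  · rw [e1]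
    have e2 : R ^ (-((1 - ε₀) * (δ / 2))) = R ^ (-(δ / 2)) * R ^ (ε₀ * (δ / 2)) := by
      rw [← Real.rpow_add hRp]
      congr 1
      ring
    have e3 : R ^ (-δ) = R ^ (-(δ / 2)) * R ^ (-(δ / 2)) := by
      rw [← Real.rpow_add hRp]
      congr 1
      ring
    rw [e2, e3]
    have h8 : 0 < R ^ (-(δ / 2)) := Real.rpow_pos_of_pos hRp _
    calc C₂ * (R ^ (-(δ / 2)) * R ^ (-(δ / 2))) + R ^ (-(δ / 2))
        = R ^ (-(δ / 2)) * (C₂ * R ^ (-(δ / 2)) + 1) := by ring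
      _ ≤ R ^ (-(δ / 2)) * R ^ (ε₀ * (δ / 2)) := by
          apply mul_le_mul_of_nonneg_left _ h8.le
          linarith
  · rw [e1]
    exact g5
  · have e2 : R ^ (1 - ε₀) * R ^ ε₀ = R := by
      rw [← Real.rpow_add hRp, sub_add_cancel, Real.rpow_one]
    have h8 : 0 < R ^ (1 - ε₀) := Real.rpow_pos_of_pos hRp _
    nlinarith

theorem pf_MAIN4 (hREC4 : T_REC4) (hBASs : T_BASs) : T_MAIN4 := by
  intro m L x ε' hm hx0 hmx hmx4 hAL hL hε'
  have hm1 : (1 : ℝ) ≤ (m : ℝ) := by exact_mod_cast hm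
  have hx4 : x ≤ 4 := by nlinarith
  -- wlog `ε ≤ 1`
  obtain ⟨ε, hε, hε1, hεε⟩ : ∃ ε : ℝ, 0 < ε ∧ ε ≤ 1 ∧ ε ≤ ε' :=
    ⟨min ε' 1, lt_min hε' one_pos, min_le_right _ _, min_le_left _ _⟩
  suffices h : ∃ C : ℝ, 0 < C ∧ ∀ R : ℝ, 1 ≤ R → Bds m L x (1 / 4) R (C * R ^ ε) by
    obtain ⟨C, hC, h⟩ := h
    refine ⟨C, hC, fun R hR => bd_mono (by linarith) (h R hR) ?_⟩
    have := Real.rpow_le_rpow_of_exponent_le hR hεε
    gcongr
  -- parameters
  have hlb : 1 ≤ lb m := by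
    unfold lb
    have : (0 : ℝ) ≤ (m : ℝ) := by positivity
    nlinarith
  have hlb0 : 0 < lb m := by linarith
  obtain ⟨ε₀, h01, h02, h03⟩ : ∃ ε₀ : ℝ, 0 < ε₀ ∧ ε₀ ≤ 1 / 4 ∧ lb m * ε₀ ≤ ε / 16 := by
    refine ⟨min (1 / 4) (ε / (16 * lb m)), lt_min (by norm_num) (by positivity),
      min_le_left _ _, ?_⟩
    calc lb m * min (1 / 4) (ε / (16 * lb m)) ≤ lb m * (ε / (16 * lb m)) := by
          apply mul_le_mul_of_nonneg_left (min_le_right _ _) hlb0.le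
      _ = ε / 16 := by
          field_simp
  obtain ⟨δ, h11, h12, h13⟩ : ∃ δ : ℝ, 0 < δ ∧ δ ≤ 1 / 100 ∧ lb m * δ ≤ ε₀ * ε / 16 := by
    refine ⟨min (1 / 100) (ε₀ * ε / (16 * lb m)), lt_min (by norm_num) (by positivity),
      min_le_left _ _, ?_⟩
    calc lb m * min (1 / 100) (ε₀ * ε / (16 * lb m)) ≤ lb m * (ε₀ * ε / (16 * lb m)) := by
          apply mul_le_mul_of_nonneg_left (min_le_right _ _) hlb0.le
      _ = ε₀ * ε / 16 := by
          field_simp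
  obtain ⟨C₁, γ, hC₁, hγ, hR⟩ := hREC4 m L x hm hx0 hmx hmx4 hAL hL
  -- `K₁`
  obtain ⟨K₁, hK12, hK1C⟩ : ∃ K : ℝ, 2 ≤ K ∧ C₁ * K ^ (2 - m * x) ≤ 1 / 4 := by
    have h1 : ∀ᶠ K : ℝ in atTop, C₁ * K ^ (2 - m * x) ≤ 1 / 4 := by
      have := (tneg (m * x - 2) (by linarith)).const_mul C₁
      rw [mul_zero, neg_sub] at this
      exact (this.eventually (gt_mem_nhds (by norm_num : (0 : ℝ) < 1 / 4))).mono
        fun R h => h.le
    exact ((eventually_ge_atTop (2 : ℝ)).and h1).exists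
  obtain ⟨C₂, K₀, hC₂, hK₀, hR⟩ := hR K₁ (by linarith)
  -- `K`
  obtain ⟨K, hKK₀, hKC⟩ : ∃ K : ℝ, K₀ ≤ K ∧ C₂ * K ^ (-γ) ≤ 1 / 4 := by
    have h1 : ∀ᶠ K : ℝ in atTop, C₂ * K ^ (-γ) ≤ 1 / 4 := by
      have := (tneg γ hγ).const_mul C₂
      rw [mul_zero] at this
      exact (this.eventually (gt_mem_nhds (by norm_num : (0 : ℝ) < 1 / 4))).mono
        fun R h => h.le
    exact ((eventually_ge_atTop K₀).and h1).exists
  have hK1K : K₁ ≤ K := hK₀.trans hKK₀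
  have hK2 : 2 ≤ K := hK12.trans hK1K
  obtain ⟨C₄, hC₄, hR⟩ := hR K hKK₀ δ ε₀ (ε₀ * ε / 8) h11 h12 h01 h02 (by positivity)
  obtain ⟨R₂, hR₂, hthr⟩ := thr K C₄ δ ε₀ ε h11 h01 h02 hε
  obtain ⟨C₀, hC₀, hB⟩ := hBASs m L x (by omega) hx0 hx4
  -- the constant
  let C : ℝ := max 1 (C₀ * R₂)
  have hC1 : 1 ≤ C := le_max_left _ _
  have hC2 : C₀ * R₂ ≤ C := le_max_right _ _
  have hC0 : 0 < C := by linarith
  have key : ∀ (n : ℕ) (R κ : ℝ), 1 ≤ R → R < 2 ^ n → 0 ≤ κ → κ ≤ 3 / 8 →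
      (R₂ ≤ R → κ ≤ 1 / 4 + R ^ (-(δ / 2))) → Bds m L x κ R (C * R ^ ε) := by
    intro n
    induction n with
    | zero =>
      intro R κ h1 h2
      rw [pow_zero] at h2
      exact absurd h1 (not_le.2 h2)
    | succ n ih =>
      intro R κ h1 h2 hκ0 hκ hκ2
      have hRp : 0 < R := by linarith
      rcases lt_or_ge R R₂ with hlt | hge
      · refine bd_mono hRp.le (hB κ R hκ0 (by linarith) h1) ?_
        have h3 : 1 ≤ R ^ ε := Real.one_le_rpow h1 hε.le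
        have h4 : C₀ * R ≤ C₀ * R₂ := by gcongr
        nlinarith
      · obtain ⟨t1, t2, t3, t4, t5, t6⟩ := hthr R hge
        have hκR := hκ2 hge
        have hsub : ∀ Q : ℝ, 2 ≤ Q → Q ≤ K → Bds m L x κ (R / Q ^ 2) (C * (R / Q ^ 2) ^ ε) ∧
            0 ≤ (R / Q ^ 2) ^ ε ∧ (R / Q ^ 2) ^ ε ≤ R ^ ε := by
          intro Q hQ2 hQK
          have hQ4 : (4 : ℝ) ≤ Q ^ 2 := by nlinarith
          have hQ0 : (0 : ℝ) < Q ^ 2 := by linarith
          have hQR : Q ^ 2 ≤ R := le_trans (by nlinarith) t1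
          have hR'1 : 1 ≤ R / Q ^ 2 := by rwa [le_div_iff₀ hQ0, one_mul]
          have hR'R : R / Q ^ 2 ≤ R / 4 := by gcongr
          have hpow : (2 : ℝ) ^ (n + 1) = 2 * 2 ^ n := by rw [pow_succ]; ring
          have hm1 : R ^ (-(δ / 2)) ≤ (R / Q ^ 2) ^ (-(δ / 2)) := by
            apply Real.rpow_le_rpow_of_nonpos (by linarith) (by linarith) (by linarith)
          refine ⟨ih (R / Q ^ 2) κ hR'1 (by linarith) hκ0 hκ (fun _ => by linarith),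
            by positivity, Real.rpow_le_rpow (by linarith) (by linarith) hε.le⟩
        have hpow : (2 : ℝ) ^ (n + 1) = 2 * 2 ^ n := by rw [pow_succ]; ring
        have hR''1 : 1 ≤ R ^ (1 - ε₀) := Real.one_le_rpow h1 (by linarith)
        have hC₂p : 0 ≤ C₄ * R ^ (-δ) := by
          have := Real.rpow_nonneg hRp.le (-δ)
          have : 0 ≤ C₄ := by linarith
          positivity
        obtain ⟨b1, b1p, b1l⟩ := hsub K₁ hK12 hK1K
        obtain ⟨b2, b2p, b2l⟩ := hsub K hK2 le_rfl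
        have b3 := ih (R ^ (1 - ε₀)) (κ + C₄ * R ^ (-δ)) hR''1 (by linarith) (by linarith)
          (by linarith) (fun _ => by linarith)
        have b4 := hR κ R (C * (R / K₁ ^ 2) ^ ε) (C * (R / K ^ 2) ^ ε)
          (C * (R ^ (1 - ε₀)) ^ ε) hκ0 hκ t2
          (by positivity) (by positivity) (by
            have : 1 ≤ (R ^ (1 - ε₀)) ^ ε := Real.one_le_rpow hR''1 hε.le
            exact one_le_mul_of_one_le_of_one_le hC1 this) b1 b2 b3
        refine bd_mono hRp.le b4 ?_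
        have hRε : 0 < R ^ ε := Real.rpow_pos_of_pos hRp _
        -- first term
        have c1 : C₁ * K₁ ^ (2 - m * x) * (C * (R / K₁ ^ 2) ^ ε) ≤ C * R ^ ε / 4 := by
          calc C₁ * K₁ ^ (2 - m * x) * (C * (R / K₁ ^ 2) ^ ε)
              ≤ 1 / 4 * (C * R ^ ε) := by
                apply mul_le_mul hK1C (by gcongr) (by positivity) (by norm_num)
            _ = C * R ^ ε / 4 := by ring
        -- second term
        have c2 : C₂ * K ^ (-γ) * (C * (R / K ^ 2) ^ ε) ≤ C * R ^ ε / 4 := by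
          calc C₂ * K ^ (-γ) * (C * (R / K ^ 2) ^ ε)
              ≤ 1 / 4 * (C * R ^ ε) := by
                apply mul_le_mul hKC (by gcongr) (by positivity) (by norm_num)
            _ = C * R ^ ε / 4 := by ring
        -- third term
        have c3 : C₄ * R ^ (ε₀ * ε / 8 + 2 * lb m * δ) * (C * (R ^ (1 - ε₀)) ^ ε) ≤
            C * R ^ ε / 4 := by
          have h3 : R ^ (ε₀ * ε / 8 + 2 * lb m * δ) ≤ R ^ (ε₀ * ε / 4) := by
            apply Real.rpow_le_rpow_of_exponent_le h1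
            linarith
          have h4 : R ^ (ε₀ * ε / 4) * (R ^ (1 - ε₀)) ^ ε ≤ R ^ (-(ε₀ * ε / 2)) * R ^ ε := by
            rw [← Real.rpow_mul hRp.le, ← Real.rpow_add hRp, ← Real.rpow_add hRp]
            apply Real.rpow_le_rpow_of_exponent_le h1
            have h6 : 0 < ε₀ * ε := mul_pos h01 hε
            have h7 : (1 - ε₀) * ε = ε - ε₀ * ε := by ring
            rw [h7]
            linarith
          have h5 : 0 ≤ (R ^ (1 - ε₀)) ^ ε := by positivity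
          calc C₄ * R ^ (ε₀ * ε / 8 + 2 * lb m * δ) * (C * (R ^ (1 - ε₀)) ^ ε)
              ≤ C₄ * R ^ (ε₀ * ε / 4) * (C * (R ^ (1 - ε₀)) ^ ε) := by gcongr
            _ = C₄ * C * (R ^ (ε₀ * ε / 4) * (R ^ (1 - ε₀)) ^ ε) := by ring
            _ ≤ C₄ * C * (R ^ (-(ε₀ * ε / 2)) * R ^ ε) := by gcongr
            _ = (C₄ * R ^ (-(ε₀ * ε / 2))) * (C * R ^ ε) := by ring
            _ ≤ 1 / 4 * (C * R ^ ε) := by
                apply mul_le_mul t5 (by gcongr) (by positivity) (by norm_num)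
            _ = C * R ^ ε / 4 := by ring
        -- fourth term
        have c4 : C₄ * R ^ (2 * lb m * (δ + ε₀)) ≤ C * R ^ ε / 4 := by
          have h3 : R ^ (2 * lb m * (δ + ε₀)) ≤ R ^ (-(ε₀ * ε / 2)) * R ^ ε := by
            rw [← Real.rpow_add hRp]
            apply Real.rpow_le_rpow_of_exponent_le h1
            have h6 : 0 < ε₀ * ε := mul_pos h01 hε
            have h7 : 2 * lb m * (δ + ε₀) = 2 * (lb m * δ) + 2 * (lb m * ε₀) := by ring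
            have h8 : ε₀ * ε ≤ 1 / 4 * ε := mul_le_mul_of_nonneg_right h02 hε.le
            rw [h7]
            linarith
          calc C₄ * R ^ (2 * lb m * (δ + ε₀)) ≤ C₄ * (R ^ (-(ε₀ * ε / 2)) * R ^ ε) := by gcongr
            _ = (C₄ * R ^ (-(ε₀ * ε / 2))) * (1 * R ^ ε) := by ring
            _ ≤ 1 / 4 * (C * R ^ ε) := by
                apply mul_le_mul t5 (by gcongr) (by positivity) (by norm_num)
            _ = C * R ^ ε / 4 := by ring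
        linarith
  refine ⟨C, hC0, fun R hR1 => ?_⟩
  obtain ⟨n, hn⟩ := pow_unbounded_of_one_lt R (by norm_num : (1 : ℝ) < 2)
  refine key n R (1 / 4) hR1 hn (by norm_num) (by norm_num) (fun _ => ?_)
  have := Real.rpow_nonneg (by linarith : (0 : ℝ) ≤ R) (-(δ / 2))
  linarith

end Pool.Agent.H35.G4
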